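import Pool.Agent.N139.AS.Stm

/-!
# Project AS: the periodic part is fixed by the kernel of a folding map (`S_CLP`)
-/

set_option autoImplicit false

namespace Pool.Agent.N724.AS

open Finset
open Pool.Agent.N139.AS

noncomputable section

namespace CLP

theorem ct_le_sum {X ι : Type} [Fintype X] (P : X → Prop) (I : Finset ι) (Q : ι → X → Prop)
    (h : ∀ x, P x → ∃ i ∈ I, Q i x) : ct P ≤ ∑ i ∈ I, ct (Q i) := by
  classical
  unfold ct
  rw [← Nat.cast_sum]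
  norm_cast
  refine le_trans ?_ (Finset.card_biUnion_le (s := I) (t := fun i => univ.filter (Q i)))
  apply Finset.card_le_card
  intro x hx
  obtain ⟨i, hi, hQ⟩ := h x (by simpa using hx)
  simp only [Finset.mem_biUnion, Finset.mem_filter, Finset.mem_univ, true_and]
  exact ⟨i, hi, by simpa using hQ⟩

end CLP

theorem t_CLP (h1 : S_CLPT) (h2 : S_DENS) (hO : S_OK) : S_CLP := by
  intro p hpf hp K ε hε
  have hfin : Finite ((SS p).W (-(K : ℤ)) (K : ℤ)) := (hO p).fin _ _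
  have hfin' : ((WN p (-(K : ℤ)) (K : ℤ) : Subgroup (NN p)) : Set (NN p)).Finite :=
    Set.finite_coe_iff.1 hfin
  set F : Finset (NN p) := hfin'.toFinset with hF
  set I : Finset (ℕ × NN p) := Finset.Icc 1 K ×ˢ F with hI
  obtain ⟨m, hm⟩ := exists_nat_gt (2 * (I.card : ℝ) / ε)
  obtain ⟨q, hq, hw⟩ := h1 p hp K m
  refine ⟨q, hq, fun w => ?_⟩
  obtain ⟨R0, hR0⟩ := hw w
  refine ⟨R0 + 2 * K, fun R hR X _ α t hact => ?_⟩
  obtain ⟨r, rfl⟩ : ∃ r, R = r + 2 * K := ⟨R - 2 * K, by omega⟩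
  have hr : R0 ≤ r := by omega
  have key := CLP.ct_le_sum
    (fun x => (∃ (j : ℕ) (n : NN p), 0 < j ∧ j ≤ K ∧ n ∈ WN p (-K) K ∧ (t ^ j) x = α n x) ∧
        ∃ n' ∈ WN p (-w) w, fN p q n' = 1 ∧ α n' x ≠ x) I
    (fun i x => (t ^ i.1) x = α i.2 x ∧ ¬ (CA p m r α x i.2 i.1 ∧ CL p m r K α x i.2 i.1)) (by
      rintro x ⟨⟨j, n, hj, hjK, hn, hx⟩, n', hn', hfn, hne⟩
      refine ⟨(j, n), ?_, hx, ?_⟩
      · rw [hI, Finset.mem_product]
        refine ⟨Finset.mem_Icc.2 ⟨hj, hjK⟩, ?_⟩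
        rw [hF, Set.Finite.mem_toFinset]
        exact hn
      · rintro ⟨hA, hL⟩
        exact hne (hR0 r hr X α t hact x j n hj hjK hn hx hA hL n' hn' hfn))
  refine key.trans ?_
  have hsum : ∑ i ∈ I, ct (fun x => (t ^ i.1) x = α i.2 x ∧
      ¬ (CA p m r α x i.2 i.1 ∧ CL p m r K α x i.2 i.1)) ≤
      ∑ _i ∈ I, 2 / (m + 1 : ℝ) * Fintype.card X := by
    apply Finset.sum_le_sum
    rintro ⟨j, n⟩ hi
    rw [hI, Finset.mem_product, Finset.mem_Icc, hF, Set.Finite.mem_toFinset] at hi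
    exact h2 p K m r X α t hact j n hi.1.1 hi.1.2 hi.2
  refine hsum.trans ?_
  rw [Finset.sum_const, nsmul_eq_mul, ← mul_assoc]
  apply mul_le_mul_of_nonneg_right _ (Nat.cast_nonneg _)
  have h3 : 2 * (I.card : ℝ) < ε * m := by
    rw [div_lt_iff₀ hε] at hm
    linarith
  rw [mul_div_assoc', div_le_iff₀ (by positivity)]
  nlinarith

end

end Pool.Agent.N724.AS
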